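import Mathlib

set_option autoImplicit false

namespace Pool.Agent.Results.MP_150402_gt.Arens

open Set Filter Topology

variable (Y Z : Type) [TopologicalSpace Y] [TopologicalSpace Z]

/-- The family `O_Z(Y)`. -/
def OZ : Set (Set Y) := {W | ∃ (f : C(Y, Z)) (U : Set Z), IsOpen U ∧ W = f ⁻¹' U}

/-- `Z`-Scott open families of open sets. -/
def ZScott (H : Set (Set Y)) : Prop :=
  (∀ W ∈ H, IsOpen W) ∧ (∀ W ∈ H, W ∈ OZ Y Z → ∀ V, IsOpen V → W ⊆ V → V ∈ H) ∧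
  ∀ S ⊆ OZ Y Z, ⋃₀ S ∈ H → ∃ T ⊆ S, T.Finite ∧ ⋃₀ T ∈ H

/-- The topology `t_1^Z`. -/
def t1 : TopologicalSpace C(Y, Z) :=
  TopologicalSpace.generateFrom {B | ∃ (H : Set (Set Y)) (U : Set Z),
    ZScott Y Z H ∧ IsOpen U ∧ B = {f : C(Y, Z) | f ⁻¹' U ∈ H}}

def AF : Type := Option (ℕ × ℕ)

instance : TopologicalSpace AF where
  IsOpen U := none ∈ U → ∀ᶠ j in atTop, ∀ᶠ k in atTop, (some (j, k) : AF) ∈ U
  isOpen_univ := fun _ => Eventually.of_forall fun _ => Eventually.of_forall fun _ => mem_univ _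
  isOpen_inter := fun _ _ hs ht h => ((hs h.1).and (ht h.2)).mono fun _ hj => hj.1.and hj.2
  isOpen_sUnion := fun _ hS ⟨W, hW, h⟩ => (hS W hW h).mono fun _ hj => hj.mono fun _ hk => ⟨W, hW, hk⟩

open Classical in
noncomputable def chi (S : Set AF) (hS : IsClopen S) : C(AF, Bool) :=
  ⟨fun y => decide (y ∈ S), (continuous_boolIndicator_iff_isClopen S).2 hS |>.congr fun y => by
    simp [boolIndicator]⟩

lemma oz {S : Set AF} (hS : IsClopen S) : S ∈ OZ AF Bool :=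
  ⟨chi S hS, {true}, isOpen_discrete _, by ext y; simp [chi]⟩

def blk (j n : ℕ) : Set AF := {y | ∃ k < n, y = some (j, k)}
def col (j : ℕ) : Set AF := {y | ∃ k, y = some (j, k)}

lemma clopen_of {S : Set AF} {j : ℕ} (h : S ⊆ col j) : IsClopen S := by
  refine ⟨⟨fun _ => ?_⟩, fun h' => by obtain ⟨k, hk⟩ := h h'; cases hk⟩
  filter_upwards [eventually_gt_atTop j] with i hi
  refine Eventually.of_forall fun k hk => ?_
  obtain ⟨k, hk⟩ := h hk
  cases hk; omega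

lemma blk_sub (j n : ℕ) : blk j n ⊆ col j := fun _ ⟨k, _, h⟩ => ⟨k, h⟩

lemma pre (S : Set AF) (hS : IsClopen S) (U : Set Bool) :
    chi S hS ⁻¹' U = {y | (y ∈ S ∧ true ∈ U) ∨ (y ∉ S ∧ false ∈ U)} := by
  ext y
  by_cases h : y ∈ S <;> simp [chi, h]

lemma fin_cover {H : Set (Set AF)} (hH : ZScott AF Bool H) {V G : Set AF} (hV : IsClopen V)
    (h0 : none ∈ G → none ∈ V) (hVG : V ⊆ G) (hG : G ∈ H) :
    ∃ F : Set (ℕ × ℕ), F.Finite ∧ some '' F ⊆ G ∧ ∀ W, IsOpen W → V ⊆ W → some '' F ⊆ W → W ∈ H := by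
  have c1 : ∀ p : ℕ × ℕ, IsClopen ({some p} : Set AF) := fun p =>
    clopen_of (j := p.1) fun y hy => ⟨p.2, hy⟩
  obtain ⟨T, h1, h2, h4⟩ := hH.2.2 (insert V ((fun p => {some p}) '' {p | some p ∈ G})) (by
    rintro _ (rfl | ⟨p, -, rfl⟩)
    exacts [oz hV, oz (c1 p)]) (by
    convert hG
    ext y
    constructor
    · rintro ⟨_, rfl | ⟨p, hp, rfl⟩, h⟩
      exacts [hVG h, h ▸ hp]
    · intro h
      cases y with
      | none => exact ⟨V, Or.inl rfl, h0 h⟩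
      | some p => exact ⟨_, Or.inr ⟨p, h, rfl⟩, rfl⟩)
  refine ⟨{p | some p ∈ G ∧ {some p} ∈ T}, (h2.preimage (f := fun p => ({some p} : Set AF))
    fun p _ q _ h => Option.some_injective _ (singleton_injective h)).subset fun p hp => hp.2,
    by rintro _ ⟨p, hp, rfl⟩; exact hp.1, fun W hW a b => hH.2.1 _ h4 (oz ?_) W hW ?_⟩
  · rw [sUnion_eq_biUnion]
    refine h2.isClopen_biUnion fun t ht => ?_
    rcases h1 ht with rfl | ⟨p, -, rfl⟩
    exacts [hV, c1 p]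
  · rintro y ⟨t, ht, hy⟩
    rcases h1 ht with rfl | ⟨p, hp, rfl⟩
    exacts [a hy, b ⟨p, ⟨hp, ht⟩, hy.symm⟩]

lemma lim0 (n : ℕ → ℕ) : Tendsto (fun j => chi (blk j (n j)) (clopen_of (blk_sub _ _))) atTop
    (@nhds _ (t1 AF Bool) (chi ∅ isClopen_empty)) := by
  rw [t1, TopologicalSpace.tendsto_nhds_generateFrom_iff]
  rintro _ ⟨H, U, hH, -, rfl⟩ h
  have hV : IsClopen (⋃ j, blk j (n j))ᶜ := by
    refine ⟨isClosed_compl_iff.2 (isOpen_iUnion fun j => (clopen_of (blk_sub _ _)).isOpen), fun _ =>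
      Eventually.of_forall fun j => ?_⟩
    filter_upwards [eventually_ge_atTop (n j)] with k hk h
    obtain ⟨i, l, h1, h2⟩ := mem_iUnion.1 h
    cases h2; omega
  by_cases hU : false ∈ U
  · obtain ⟨F, hF, -, h3⟩ := fin_cover hH hV (G := chi ∅ isClopen_empty ⁻¹' U) (fun _ h => by
      obtain ⟨i, l, h1, h2⟩ := mem_iUnion.1 h
      cases h2) (fun y _ => by simp [pre, hU]) h
    obtain ⟨N, hN⟩ := (hF.image Prod.fst).bddAbove
    filter_upwards [eventually_gt_atTop N] with j hj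
    refine h3 _ ((isOpen_discrete U).preimage (chi _ _).continuous) (fun y hy => ?_) ?_
    · rw [pre]; exact Or.inr ⟨fun h => hy (mem_iUnion.2 ⟨j, h⟩), hU⟩
    · rintro _ ⟨p, hp, rfl⟩
      rw [pre]
      refine Or.inr ⟨?_, hU⟩
      rintro ⟨k, -, e⟩
      cases e
      exact absurd (hN ⟨_, hp, rfl⟩) (not_le.2 hj)
  · refine Eventually.of_forall fun j => hH.2.1 _ h ⟨_, U, isOpen_discrete _, rfl⟩ _
      ((isOpen_discrete U).preimage (chi _ _).continuous) fun y hy => ?_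
    simp [pre, hU] at hy

lemma lim1 (j : ℕ) : Tendsto (fun n => chi (blk j n) (clopen_of (blk_sub _ _))) atTop
    (@nhds _ (t1 AF Bool) (chi (col j) (clopen_of Subset.rfl))) := by
  rw [t1, TopologicalSpace.tendsto_nhds_generateFrom_iff]
  rintro _ ⟨H, U, hH, -, rfl⟩ h
  have hV : IsClopen ((col j)ᶜ ∩ chi (col j) (clopen_of Subset.rfl) ⁻¹' U) :=
    (clopen_of Subset.rfl).compl.inter ((isClopen_discrete U).preimage (chi _ _).continuous)
  obtain ⟨F, hF, h2, h3⟩ := fin_cover hH hV (fun h => ⟨(by rintro ⟨k, hk⟩; cases hk), h⟩)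
    inter_subset_right h
  obtain ⟨N, hN⟩ := (hF.image Prod.snd).bddAbove
  filter_upwards [eventually_gt_atTop N] with n hn
  refine h3 _ ((isOpen_discrete U).preimage (chi _ _).continuous) (fun y hy => ?_) ?_
  · rw [pre] at *
    exact Or.inr ⟨fun h => hy.1 (blk_sub _ _ h), (hy.2.resolve_left fun h => hy.1 h.1).2⟩
  · rintro _ ⟨p, hp, rfl⟩
    have := h2 ⟨p, hp, rfl⟩
    rw [pre] at *
    rcases this with ⟨⟨k, e⟩, b⟩ | ⟨a, b⟩
    · cases e
      exact Or.inl ⟨⟨k, (hN ⟨_, hp, rfl⟩).trans_lt hn, rfl⟩, b⟩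
    · exact Or.inr ⟨fun h => a (blk_sub _ _ h), b⟩

def HH : Set (Set AF) := {W | IsOpen W ∧ none ∈ W ∧ ∀ j, ∃ k, (some (j, k) : AF) ∈ W}

lemma hHH : ZScott AF Bool HH := by
  refine ⟨fun W h => h.1, fun W h _ V hV hs => ⟨hV, hs h.2.1, fun j => (h.2.2 j).imp fun k hk => hs hk⟩,
    fun S hS h => ?_⟩
  have ho : ∀ W ∈ S, IsOpen W := fun W hW => by
    obtain ⟨f, U, hU, rfl⟩ := hS hW
    exact hU.preimage f.continuous
  obtain ⟨W, hW, h0⟩ := h.2.1
  obtain ⟨N, hN⟩ := eventually_atTop.1 (ho W hW h0)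
  choose k V h1 h2 using h.2.2
  have hs : insert W (V '' Iio N) ⊆ S := by
    rintro _ (rfl | ⟨j, -, rfl⟩)
    exacts [hW, h1 j]
  refine ⟨_, hs, ((finite_Iio N).image _).insert _,
    isOpen_sUnion fun t ht => ho t (hs ht), ⟨W, Or.inl rfl, h0⟩, fun j => ?_⟩
  by_cases hj : j < N
  · exact ⟨k j, V j, Or.inr ⟨j, hj, rfl⟩, h2 j⟩
  · exact (hN j (not_lt.1 hj)).exists.imp fun k hk => ⟨W, Or.inl rfl, hk⟩

theorem result : ∃ (Y Z : Type) (_ : TopologicalSpace Y) (_ : TopologicalSpace Z),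
    DiscreteTopology Z ∧ RegularSpace Z ∧ ¬ @RegularSpace C(Y, Z) (t1 Y Z) := by
  refine ⟨AF, Bool, inferInstance, inferInstance, inferInstance, inferInstance, fun h => ?_⟩
  letI := t1 AF Bool
  have ho : IsOpen {f : C(AF, Bool) | f ⁻¹' {false} ∈ HH} :=
    TopologicalSpace.isOpen_generateFrom_of_mem ⟨HH, _, hHH, isOpen_discrete _, rfl⟩
  obtain ⟨C, h1, h2, h3⟩ := exists_mem_nhds_isClosed_subset (ho.mem_nhds (x := chi ∅ isClopen_empty)
    ⟨(isOpen_discrete _).preimage (chi _ _).continuous, by rw [pre]; exact Or.inr ⟨id, rfl⟩,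
      fun j => ⟨0, by rw [pre]; exact Or.inr ⟨id, rfl⟩⟩⟩)
  have : ∃ j, ∀ n, chi (blk j n) (clopen_of (blk_sub _ _)) ∈ C := by
    by_contra hh
    push Not at hh
    choose n hn using hh
    obtain ⟨j, hj⟩ := ((lim0 n).eventually h1).exists
    exact hn j hj
  obtain ⟨j, hj⟩ := this
  obtain ⟨k, hk⟩ := (h3 (h2.mem_of_tendsto (lim1 j) (Eventually.of_forall hj))).2.2 j
  rw [pre] at hk
  rcases hk with h | h
  · cases h.2
  · exact h.1 ⟨k, rfl⟩

end Pool.Agent.Results.MP_150402_gt.Arens
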